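import Mathlib
set_option autoImplicit false

namespace Pool.Agent.H.MP_16c276_co
open Finset

def R {n : ℕ} (P : Finset (Fin n) → Prop) : Set (Fin n → ℝ) :=
  {x | (∀ i, 0 ≤ x i) ∧ ∑ i, x i = 1 ∧ ∃ σ, P σ ∧ ∀ i, i ∉ σ → x i = 0}

theorem stellar {n : ℕ} (P Q : Finset (Fin n) → Prop) (A : Finset (Fin n)) (hA : A.Nonempty)
    (w : Fin n) (hw : w ∉ A) (h1 : ∀ F, P F → w ∉ F)
    (h2 : ∀ G, Q G ↔ (P G ∧ ¬ A ⊆ G) ∨ ∃ F, P F ∧ A ⊆ F ∧ ∃ i ∈ A, G = insert w (F.erase i)) :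
    Nonempty (R Q ≃ₜ R P) := by
  have c0 : (0 : ℝ) < A.card := by exact_mod_cast hA.card_pos
  obtain ⟨d, hd⟩ : ∃ d : Fin n → ℝ, d = fun i => (if i ∈ A then 1 else 0) -
    (if i = w then (A.card : ℝ) else 0) := ⟨_, rfl⟩
  have d0 : ∑ i, d i = 0 := by simp [hd, sum_sub_distrib]
  have dw : d w = -A.card := by simp [hd, hw]
  have dA : ∀ i ∈ A, d i = 1 := fun i hi => by simp [hd, hi, ne_of_mem_of_not_mem hi hw]
  have dn : ∀ i, i ∉ A → i ≠ w → d i = 0 := fun i a b => by simp [hd, a, b]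
  have k1 : ∀ x ∈ R Q, (∃ i ∈ A, x i = 0) ∧ x + (x w / A.card) • d ∈ R P := by
    rintro x ⟨x0, x1, G, hG, x2⟩
    have e : ∀ i, (x + (x w / A.card) • d) i = x i + x w / A.card * d i := fun i => rfl
    have ew : (x + (x w / A.card) • d) w = 0 := by rw [e, dw]; field_simp; ring
    have p0 : ∀ i, 0 ≤ (x + (x w / A.card) • d) i := fun i => by
      by_cases a : i = w
      · rw [a, ew]
      by_cases b : i ∈ A
      · rw [e, dA i b]; have := x0 i; have := x0 w; positivity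
      · rw [e, dn i b a]; simpa using x0 i
    have p1 : ∑ i, (x + (x w / A.card) • d) i = 1 := by
      simp only [e, sum_add_distrib, ← mul_sum, d0, x1, mul_zero, add_zero]
    rcases (h2 G).1 hG with ⟨a, b⟩ | ⟨F, a, b, i, hi, rfl⟩
    · obtain ⟨i, i1, i2⟩ := not_subset.1 b
      exact ⟨⟨i, i1, x2 i i2⟩, p0, p1, G, a, fun j hj => by simp [x2 j hj, x2 w (h1 G a)]⟩
    · refine ⟨⟨i, hi, x2 i (by simp [ne_of_mem_of_not_mem hi hw])⟩, p0, p1, F, a, fun j hj => ?_⟩
      by_cases c : j = w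
      · rw [c, ew]
      · rw [e, dn j (fun h => hj (b h)) c, x2 j (by simp [c, hj])]; simp
  have k2 : ∀ y ∈ R P, y w = 0 ∧ y - A.inf' hA y • d ∈ R Q := by
    rintro y ⟨y0, y1, F, hF, y2⟩
    have e : ∀ i, (y - A.inf' hA y • d) i = y i - A.inf' hA y * d i := fun i => rfl
    obtain ⟨i, hi, ei⟩ := exists_mem_eq_inf' hA y
    have m1 : ∀ j ∈ A, A.inf' hA y ≤ y j := fun j hj => inf'_le y hj
    have m0 : 0 ≤ A.inf' hA y := ei ▸ y0 i
    refine ⟨y2 w (h1 F hF), fun j => ?_, by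
      simp only [e, sum_sub_distrib, ← mul_sum, d0, y1, mul_zero, sub_zero], ?_⟩
    · by_cases a : j = w
      · rw [e, a, dw]; have := y0 w; nlinarith
      by_cases b : j ∈ A
      · rw [e, dA j b]; linarith [m1 j b]
      · rw [e, dn j b a]; simpa using y0 j
    by_cases c : A ⊆ F
    · refine ⟨_, (h2 _).2 (Or.inr ⟨F, hF, c, i, hi, rfl⟩), fun j hj => ?_⟩
      simp only [mem_insert, mem_erase, not_or, not_and] at hj
      by_cases a : j = i
      · rw [e, a, dA i hi, ei]; simp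
      · rw [e, dn j (fun h => hj.2 a (c h)) hj.1, y2 j (hj.2 a)]; simp
    · obtain ⟨j, j1, j2⟩ := not_subset.1 c
      have : A.inf' hA y = 0 := le_antisymm (y2 j j2 ▸ m1 j j1) m0
      exact ⟨F, (h2 _).2 (Or.inl ⟨hF, c⟩), fun l hl => by simp [this, y2 l hl]⟩
  refine ⟨⟨⟨fun x => ⟨_, (k1 x x.2).2⟩, fun y => ⟨_, (k2 y y.2).2⟩, fun x => Subtype.ext ?_,
    fun y => Subtype.ext ?_⟩, ?_, ?_⟩⟩
  · obtain ⟨i, hi, e⟩ := (k1 x x.2).1
    have : A.inf' hA (x.1 + (x.1 w / A.card) • d) = x.1 w / A.card :=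
      le_antisymm ((inf'_le _ hi).trans (by simp [e, dA i hi]))
        (le_inf' _ _ fun j hj => by simpa [dA j hj] using x.2.1 j)
    simp only [this, add_sub_cancel_right]
  · have : (y.1 - A.inf' hA y.1 • d) w / A.card = A.inf' hA y.1 := by
      simp only [Pi.sub_apply, Pi.smul_apply, (k2 y y.2).1, dw, smul_eq_mul]
      field_simp
      ring
    simp only [this, sub_add_cancel]
  · exact Continuous.subtype_mk (continuous_subtype_val.add (Continuous.smul
      (((continuous_apply w).comp continuous_subtype_val).div_const _) continuous_const)) _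
  · have : Continuous fun y : R P => y.1 - A.inf' hA y.1 • d := continuous_subtype_val.sub
      (Continuous.smul (Continuous.finset_inf'_apply (f := fun i (y : R P) => y.1 i) hA
        fun i _ => (continuous_apply i).comp continuous_subtype_val) continuous_const)
    exact this.subtype_mk _

theorem simplex : Nonempty (R (fun σ : Finset (Fin 15) => σ = {0, 1, 2, 3, 4}) ≃ₜ
    Metric.closedBall (0 : EuclideanSpace ℝ (Fin 4)) 1) := by
  let T : Set (EuclideanSpace ℝ (Fin 4)) := {y | (∀ i, 0 ≤ y i) ∧ y 0 + y 1 + y 2 + y 3 ≤ 1}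
  have t1 : Convex ℝ T := fun x hx y hy a b ha hb h => ⟨fun i => by
      have := hx.1 i
      have := hy.1 i
      simp only [PiLp.add_apply, PiLp.smul_apply, smul_eq_mul]
      positivity, by
    simp only [PiLp.add_apply, PiLp.smul_apply, smul_eq_mul]
    nlinarith [mul_le_mul_of_nonneg_left hx.2 ha, mul_le_mul_of_nonneg_left hy.2 hb]⟩
  have t2 : IsClosed T := by
    simp only [T, Set.ofPred_and, Set.ofPred_forall]
    exact (isClosed_iInter fun i => isClosed_le (by fun_prop) (by fun_prop)).inter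
      (isClosed_le (by fun_prop) (by fun_prop))
  have t3 : (interior T).Nonempty := by
    have o : IsOpen {y : EuclideanSpace ℝ (Fin 4) | (∀ i, 0 < y i) ∧ y 0 + y 1 + y 2 + y 3 < 1} := by
      simp only [Set.ofPred_and, Set.ofPred_forall]
      exact (isOpen_iInter_of_finite fun i => isOpen_lt (by fun_prop) (by fun_prop)).inter
        (isOpen_lt (by fun_prop) (by fun_prop))
    exact ⟨WithLp.toLp 2 fun _ => 1 / 8, interior_maximal (fun y hy =>
      show y ∈ T from ⟨fun i => (hy.1 i).le, hy.2.le⟩) o ⟨fun i => by simp, by norm_num⟩⟩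
  have t4 : Bornology.IsBounded T := by
    refine (Metric.isBounded_closedBall (x := 0) (r := 1)).subset fun y hy => ?_
    rw [mem_closedBall_zero_iff, EuclideanSpace.norm_eq, Real.sqrt_le_one, Fin.sum_univ_four]
    have a0 := hy.1 0
    have a1 := hy.1 1
    have a2 := hy.1 2
    have a3 := hy.1 3
    have := hy.2
    simp only [Real.norm_eq_abs, sq_abs]
    nlinarith
  obtain ⟨h, -, h2, -⟩ := exists_homeomorph_image_interior_closure_frontier_eq_unitBall t1 t3 t4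
  rw [t2.closure_eq] at h2
  have k : ∀ x ∈ R (fun σ : Finset (Fin 15) => σ = {0, 1, 2, 3, 4}), x 0 + x 1 + x 2 + x 3 + x 4 = 1 ∧
      ∀ i, i ∉ ({0, 1, 2, 3, 4} : Finset (Fin 15)) → x i = 0 := by
    rintro x ⟨-, x1, _, rfl, x2⟩
    refine ⟨?_, x2⟩
    rw [← x1, ← sum_subset (subset_univ _) fun i _ hi => x2 i hi]
    simp [add_assoc]
  let f : (Fin 15 → ℝ) → EuclideanSpace ℝ (Fin 4) := fun x => WithLp.toLp 2 ![x 0, x 1, x 2, x 3]
  let g : EuclideanSpace ℝ (Fin 4) → Fin 15 → ℝ := fun y =>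
    ![y 0, y 1, y 2, y 3, 1 - (y 0 + y 1 + y 2 + y 3), 0, 0, 0, 0, 0, 0, 0, 0, 0, 0]
  have f1 : ∀ x ∈ R (fun σ : Finset (Fin 15) => σ = {0, 1, 2, 3, 4}), f x ∈ T ∧ g (f x) = x :=
    fun x hx => by
      have := (k x hx).1
      have := hx.1 4
      refine ⟨⟨fun i => by fin_cases i <;> exact hx.1 _, by simp [f]; linarith⟩, funext fun i => ?_⟩
      fin_cases i <;> first | rfl | exact ((k x hx).2 _ (by decide)).symm | skip
      simp [f, g]
      linarith
  have g1 : ∀ y ∈ T, g y ∈ R (fun σ : Finset (Fin 15) => σ = {0, 1, 2, 3, 4}) := fun y hy => by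
    refine ⟨fun i => ?_, by simp [g, Fin.sum_univ_succ]; ring, _, rfl, fun i hi => ?_⟩
    · fin_cases i
      exacts [hy.1 0, hy.1 1, hy.1 2, hy.1 3, sub_nonneg.2 hy.2, le_rfl, le_rfl, le_rfl, le_rfl,
        le_rfl, le_rfl, le_rfl, le_rfl, le_rfl, le_rfl]
    · fin_cases i <;> first | rfl | exact absurd (by decide) hi
  have g2 : ∀ y, f (g y) = y := fun y => by
    ext i
    fin_cases i <;> rfl
  have f3 : Continuous f := by fun_prop
  have g3 : Continuous g := by fun_prop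
  exact ⟨Homeomorph.trans (Y := T) ⟨⟨fun x => ⟨f x, (f1 x x.2).1⟩, fun y => ⟨g y, g1 y y.2⟩,
    fun x => Subtype.ext (f1 x x.2).2, fun y => Subtype.ext (g2 y)⟩,
    (f3.comp continuous_subtype_val).subtype_mk _, (g3.comp continuous_subtype_val).subtype_mk _⟩
    ((h.image T).trans (Homeomorph.setCongr h2))⟩

def dec (n m : ℕ) : Finset (Fin n) := univ.filter fun i => m.testBit i

theorem mem_dec {n m : ℕ} {i : Fin n} : i ∈ dec n m ↔ m.testBit i = true := by simp [dec]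

theorem sub1 {n a m : ℕ} (h : m &&& a = a) : dec n a ⊆ dec n m := fun i hi => by
  rw [mem_dec] at *
  rw [← h, Nat.testBit_and, Bool.and_eq_true] at hi
  exact hi.1

theorem sub2 {n a m : ℕ} (ha : a < 2 ^ n) (h : dec n a ⊆ dec n m) : m &&& a = a := by
  refine Nat.eq_of_testBit_eq fun i => ?_
  rw [Nat.testBit_and]
  by_cases hi : i < n
  · cases e : a.testBit i
    · simp
    · simpa using mem_dec.1 (h (mem_dec (i := ⟨i, hi⟩).2 e))
  · simp [Nat.testBit_lt_two_pow (ha.trans_le (Nat.pow_le_pow_right two_pos (not_lt.1 hi)))]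

theorem inj {n a b : ℕ} (ha : a < 2 ^ n) (hb : b < 2 ^ n) (h : dec n a = dec n b) : a = b := by
  rw [← sub2 ha h.le, Nat.and_comm, sub2 hb h.ge]

theorem dec_or {n m : ℕ} (v : Fin n) : dec n (m ||| 2 ^ v.1) = insert v (dec n m) := by
  ext i
  rw [mem_dec, mem_insert, mem_dec, Nat.testBit_or, Nat.testBit_two_pow, Bool.or_eq_true,
    decide_eq_true_eq, or_comm, Fin.ext_iff, eq_comm]

theorem dec_xor {n m : ℕ} {v : Fin n} (h : m.testBit v = true) :
    dec n (m ^^^ 2 ^ v.1) = (dec n m).erase v := by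
  ext i
  by_cases e : i = v
  · simp [mem_dec, e, h]
  · simp [mem_dec, e, Nat.testBit_two_pow_of_ne (Fin.val_ne_of_ne (Ne.symm e))]

def RL (n : ℕ) (l : List ℕ) : Set (Fin n → ℝ) := R fun σ => ∃ m ∈ l, dec n m = σ

def cov (l l' : List ℕ) : Bool := l.all fun m => l'.any fun f => f &&& m == m

theorem cov_sub {n : ℕ} {l l' : List ℕ} (h : cov l l' = true) : RL n l ⊆ RL n l' := by
  rintro x ⟨x0, x1, _, ⟨m, hm, rfl⟩, x2⟩
  obtain ⟨f, hf, e⟩ := List.any_eq_true.1 (List.all_eq_true.1 h m hm)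
  exact ⟨x0, x1, _, ⟨f, hf, rfl⟩, fun i hi => x2 i fun h => hi (sub1 (beq_iff_eq.1 e) h)⟩

def sub (n : ℕ) (l : List ℕ) (a w : ℕ) : List ℕ := l.flatMap fun f => if f &&& a = a then
  ((List.range n).filter a.testBit).map fun i => (f ^^^ 2 ^ i) ||| 2 ^ w else [f]

def okS (n : ℕ) (l : List ℕ) (a w : ℕ) : Bool :=
  0 < a && a < 2 ^ n && !a.testBit w && l.all fun f => !f.testBit w

theorem sub_homeo {n : ℕ} (l : List ℕ) (a : ℕ) (w : Fin n) (h : okS n l a w = true) :
    Nonempty (RL n (sub n l a w) ≃ₜ RL n l) := by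
  simp only [okS, Bool.and_eq_true, decide_eq_true_eq, List.all_eq_true, Bool.not_eq_true'] at h
  obtain ⟨⟨⟨h0, h1⟩, h2⟩, h3⟩ := h
  refine stellar _ _ (dec n a) (nonempty_iff_ne_empty.2 fun e => h0.ne' (inj h1 (Nat.two_pow_pos n)
    (e.trans (by simp [dec])))) w (by simp [mem_dec, h2]) (by
      rintro _ ⟨f, hf, rfl⟩
      simp [mem_dec, h3 f hf]) fun G => ⟨?_, ?_⟩
  · rintro ⟨m, hm, rfl⟩
    obtain ⟨f, hf, e⟩ := List.mem_flatMap.1 hm
    split_ifs at e with c
    · obtain ⟨i, hi, rfl⟩ := List.mem_map.1 e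
      obtain ⟨i1, i2⟩ := List.mem_filter.1 hi
      have i3 : (⟨i, List.mem_range.1 i1⟩ : Fin n) ∈ dec n a := mem_dec.2 i2
      exact Or.inr ⟨_, ⟨f, hf, rfl⟩, sub1 c, _, i3, by
        rw [dec_or, ← dec_xor (mem_dec.1 (sub1 c i3))]⟩
    · obtain rfl := List.mem_singleton.1 e
      exact Or.inl ⟨⟨m, hf, rfl⟩, fun h => c (sub2 h1 h)⟩
  · rintro (⟨⟨f, hf, rfl⟩, c⟩ | ⟨_, ⟨f, hf, rfl⟩, c, i, hi, rfl⟩)
    · exact ⟨f, List.mem_flatMap.2 ⟨f, hf, by simp [show f &&& a ≠ a from fun h => c (sub1 h)]⟩, rfl⟩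
    · refine ⟨(f ^^^ 2 ^ i.1) ||| 2 ^ w.1, List.mem_flatMap.2 ⟨f, hf, ?_⟩, by
        rw [dec_or, dec_xor (mem_dec.1 (c hi))]⟩
      rw [if_pos (sub2 h1 c)]
      exact List.mem_map.2 ⟨i, List.mem_filter.2 ⟨List.mem_range.2 i.2, mem_dec.1 hi⟩, rfl⟩

def chain : List ℕ → List (ℕ × ℕ × List ℕ) → Bool
  | l, [] => l == [31]
  | l, (a, b, l') :: t => okS 15 l a 14 && okS 15 l' b 14 && cov (sub 15 l a 14) (sub 15 l' b 14) &&
      cov (sub 15 l' b 14) (sub 15 l a 14) && chain l' t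

theorem chain_ball (t : List (ℕ × ℕ × List ℕ)) : ∀ l, chain l t = true →
    Nonempty (RL 15 l ≃ₜ Metric.closedBall (0 : EuclideanSpace ℝ (Fin 4)) 1) := by
  induction t with
  | nil =>
    intro l h
    obtain rfl : l = [31] := by simpa [chain] using h
    obtain ⟨e⟩ := simplex
    refine ⟨(Homeomorph.setCongr ?_).trans e⟩
    have : dec 15 31 = {0, 1, 2, 3, 4} := by decide
    simp [RL, this, eq_comm]
  | cons x t ih =>
    obtain ⟨a, b, l'⟩ := x
    intro l h
    simp only [chain, Bool.and_eq_true] at h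
    obtain ⟨⟨⟨⟨h1, h2⟩, h3⟩, h4⟩, h5⟩ := h
    obtain ⟨e1⟩ := sub_homeo l a (14 : Fin 15) h1
    obtain ⟨e2⟩ := sub_homeo l' b (14 : Fin 15) h2
    obtain ⟨e3⟩ := ih l' h5
    exact ⟨e1.symm.trans ((Homeomorph.setCongr ((cov_sub h3).antisymm (cov_sub h4))).trans
      (e2.trans e3))⟩

def cx (n : ℕ) (l : List ℕ) : Finset (Finset (Fin n)) := (l.map (dec n)).toFinset

theorem mem_cx {n : ℕ} {l : List ℕ} {σ : Finset (Fin n)} : σ ∈ cx n l ↔ ∃ m ∈ l, dec n m = σ := by
  simp [cx]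

def force {X : Type} (n : ℕ) (f : ℕ → X) : X := Nat.rec (f 0) (fun k _ => f k.succ) n

theorem force_eq {X : Type} (n : ℕ) (f : ℕ → X) : force n f = f n := by cases n <;> rfl

def bs (l : List ℕ) : ℕ := l.foldr (fun m t => t ||| 2 ^ m) 0

theorem mem_bs {l : List ℕ} {m : ℕ} (h : (bs l).testBit m = true) : m ∈ l := by
  induction l with
  | nil => simp [bs] at h
  | cons a t ih =>
    rw [bs, List.foldr_cons, Nat.testBit_or, Bool.or_eq_true, Nat.testBit_two_pow,
      decide_eq_true_eq] at h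
    exact List.mem_cons.2 (h.symm.imp Eq.symm ih)

def dc (n : ℕ) (l : List ℕ) : Bool := force (bs l) fun N =>
  l.all fun m => (List.range n).all fun v => !m.testBit v || N.testBit (m ^^^ 2 ^ v)

theorem dc_down {n : ℕ} {l : List ℕ} (h : dc n l = true) :
    ∀ σ ∈ cx n l, ∀ τ, τ ⊆ σ → τ ∈ cx n l := by
  rw [dc, force_eq] at h
  intro σ
  induction σ using Finset.strongInduction with
  | H σ ih =>
    intro hσ τ hτ
    rcases hτ.eq_or_ssubset with rfl | h2
    · exact hσ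
    obtain ⟨v, v1, v2⟩ := exists_of_ssubset h2
    refine ih (σ.erase v) (erase_ssubset v1) ?_ τ (subset_erase.2 ⟨hτ, v2⟩)
    obtain ⟨m, hm, rfl⟩ := mem_cx.1 hσ
    have := List.all_eq_true.1 (List.all_eq_true.1 h m hm) v (List.mem_range.2 v.2)
    rw [mem_dec.1 v1] at this
    exact mem_cx.2 ⟨_, mem_bs (by simpa using this), dec_xor (mem_dec.1 v1)⟩

inductive NE {n : ℕ} : Finset (Finset (Fin n)) → Prop
  | base (v : Fin n) : NE {∅, {v}}
  | step (L : Finset (Finset (Fin n))) (v : Fin n) : {v} ∈ L → NE (L.filter fun σ => v ∉ σ) →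
      NE (L.filter fun σ => v ∉ σ ∧ insert v σ ∈ L) → NE L

theorem NE.even {n : ℕ} {L : Finset (Finset (Fin n))} (h : NE L) :
    (∀ σ ∈ L, ∀ τ, τ ⊆ σ → τ ∈ L) → L.card % 2 = 0 := by
  induction h with
  | base v => exact fun _ => by rw [card_pair (singleton_ne_empty v).symm]
  | step L v _ _ _ i1 i2 =>
    intro hL
    have a1 := i1 fun σ hσ τ hτ => mem_filter.2 ⟨hL σ (mem_filter.1 hσ).1 τ hτ,
      fun h => (mem_filter.1 hσ).2 (hτ h)⟩
    have a2 := i2 fun σ hσ τ hτ => mem_filter.2 ⟨hL σ (mem_filter.1 hσ).1 τ hτ,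
      fun h => (mem_filter.1 hσ).2.1 (hτ h), hL _ (mem_filter.1 hσ).2.2 _ (insert_subset_insert _ hτ)⟩
    have a3 := card_filter_add_card_filter_not (s := L) fun σ => v ∈ σ
    have a4 : (L.filter fun σ => v ∉ σ ∧ insert v σ ∈ L).card = (L.filter fun σ => v ∈ σ).card :=
      card_nbij' (insert v) (·.erase v)
        (fun σ hσ => mem_filter.2 ⟨(mem_filter.1 hσ).2.2, mem_insert_self _ _⟩)
        (fun σ hσ => mem_filter.2 ⟨hL σ (mem_filter.1 hσ).1 _ (erase_subset _ _), notMem_erase _ _,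
          (insert_erase (mem_filter.1 hσ).2).symm ▸ (mem_filter.1 hσ).1⟩)
        (fun σ hσ => erase_insert (mem_filter.1 hσ).2.1) fun σ hσ => insert_erase (mem_filter.1 hσ).2
    omega

def I {n : ℕ} (K : Finset (Finset (Fin n))) (A U : Finset (Fin n)) : Finset (Finset (Fin n)) :=
  univ.filter fun σ => Disjoint σ A ∧ σ ∪ A ∈ K ∧ σ ∪ A ⊆ U

theorem card_I {n : ℕ} (K : Finset (Finset (Fin n))) (A U : Finset (Fin n)) :
    (I K A U).card = (K.filter fun τ => A ⊆ τ ∧ τ ⊆ U).card :=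
  card_nbij' (· ∪ A) (· \ A)
    (fun _ hσ => mem_filter.2 ⟨(mem_filter.1 hσ).2.2.1, subset_union_right, (mem_filter.1 hσ).2.2.2⟩)
    (fun σ hσ => by
      obtain ⟨a, b, c⟩ := mem_filter.1 hσ
      refine mem_filter.2 ⟨mem_univ _, sdiff_disjoint, ?_⟩
      rw [sdiff_union_of_subset b]
      exact ⟨a, c⟩)
    (fun _ hσ => union_sdiff_cancel_right (mem_filter.1 hσ).2.1)
    fun _ hσ => sdiff_union_of_subset (mem_filter.1 hσ).2.1

theorem card_cx {n : ℕ} {l : List ℕ} (h1 : ∀ m ∈ l, m < 2 ^ n) (h2 : l.Nodup)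
    (P : Finset (Fin n) → Prop) [DecidablePred P] (p : ℕ → Bool) (h : ∀ m ∈ l, p m = true ↔ P (dec n m)) :
    ((cx n l).filter P).card = (l.filter p).length := by
  rw [← List.toFinset_card_of_nodup (h2.filter p)]
  refine (card_nbij (dec n) (fun m hm => ?_) (fun a ha b hb e => ?_) fun σ hσ => ?_).symm
  · obtain ⟨a, b⟩ := List.mem_filter.1 (List.mem_toFinset.1 hm)
    exact mem_filter.2 ⟨mem_cx.2 ⟨m, a, rfl⟩, (h m a).1 b⟩
  · exact inj (h1 a (List.mem_filter.1 (List.mem_toFinset.1 ha)).1)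
      (h1 b (List.mem_filter.1 (List.mem_toFinset.1 hb)).1) e
  · obtain ⟨a, b⟩ := mem_filter.1 hσ
    obtain ⟨m, hm, rfl⟩ := mem_cx.1 a
    exact ⟨m, List.mem_toFinset.2 (List.mem_filter.2 ⟨hm, (h m hm).2 b⟩), rfl⟩

def pk (p : ℕ → Bool) (l : List ℕ) : ℕ := l.foldr (fun m t => 2 ^ 10 * t + (p m).toNat) 0

theorem pk_and (p q : ℕ → Bool) (l : List ℕ) : pk p l &&& pk q l = pk (fun m => p m && q m) l := by
  induction l with
  | nil => simp [pk]
  | cons a t ih =>
    refine Nat.eq_of_testBit_eq fun j => ?_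
    have k : ∀ b : Bool, b.toNat < 2 ^ 10 := by decide
    simp only [pk, List.foldr_cons] at ih ⊢
    simp only [Nat.testBit_and, Nat.testBit_two_pow_mul_add _ (k _), ← ih]
    split_ifs
    · cases p a <;> cases q a <;> simp
    · rfl

theorem pk_xor (p q : ℕ → Bool) (l : List ℕ) : pk p l ^^^ pk q l = pk (fun m => p m ^^ q m) l := by
  induction l with
  | nil => simp [pk]
  | cons a t ih =>
    refine Nat.eq_of_testBit_eq fun j => ?_
    have k : ∀ b : Bool, b.toNat < 2 ^ 10 := by decide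
    simp only [pk, List.foldr_cons] at ih ⊢
    simp only [Nat.testBit_xor, Nat.testBit_two_pow_mul_add _ (k _), ← ih]
    split_ifs
    · cases p a <;> cases q a <;> simp
    · rfl

theorem pk_mod (p : ℕ → Bool) (l : List ℕ) : pk p l % 1023 = (l.filter p).length % 1023 := by
  induction l with
  | nil => rfl
  | cons a t ih =>
    have : pk p (a :: t) = 1024 * pk p t + (p a).toNat := rfl
    rw [this, List.filter_cons]
    cases p a <;> simp <;> omega

def tb (m v : ℕ) : Bool := Nat.beq (Nat.land (Nat.shiftRight m v) 1) 1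

theorem tb_eq (m v : ℕ) : tb m v = m.testBit v := by
  show Nat.beq ((m >>> v) &&& 1) 1 = _
  rw [Nat.testBit, Nat.and_comm, Nat.one_and_eq_mod_two]
  rcases Nat.mod_two_eq_zero_or_one (m >>> v) with h | h <;> rw [h] <;> rfl

noncomputable def box (M : ℕ → ℕ) (a u X : ℕ) (n : ℕ) : ℕ := Nat.rec X (fun v Y => force Y fun Y =>
  force (Bool.rec Y (Nat.land Y (M v)) (tb a v)) fun Z =>
    Bool.rec (Nat.xor Z (Nat.land Z (M v))) Z (tb u v)) n

def bx (p : ℕ → Bool) (a u : ℕ) : ℕ → ℕ → Bool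
  | 0, m => p m
  | v + 1, m => bx p a u v m && (!a.testBit v || m.testBit v) && (u.testBit v || !m.testBit v)

theorem box_eq {M : ℕ → ℕ} {l : List ℕ} (p : ℕ → Bool) (a u n : ℕ)
    (h : ∀ v < n, M v = pk (·.testBit v) l) : box M a u (pk p l) n = pk (bx p a u n) l := by
  induction n with
  | zero => rfl
  | succ n ih =>
    have := ih fun v hv => h v (by omega)
    have e : box M a u (pk p l) (n + 1) = force (box M a u (pk p l) n) fun Y =>
      force (Bool.rec Y (Y &&& M n) (tb a n)) fun Z =>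
        Bool.rec (Z ^^^ (Z &&& M n)) Z (tb u n) := rfl
    simp only [e, force_eq, this, h n (by omega), tb_eq]
    cases e1 : a.testBit n <;> cases e2 : u.testBit n <;>
      simp only [pk_and, pk_xor] <;> congr 1 <;> ext m <;>
      simp only [bx, e1, e2] <;> cases bx p a u n m <;> cases m.testBit n <;> rfl

theorem bx_iff (p : ℕ → Bool) (a u m n : ℕ) : bx p a u n m = true ↔ p m = true ∧
    ∀ v < n, (a.testBit v = true → m.testBit v = true) ∧ (m.testBit v = true → u.testBit v = true) := by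
  induction n with
  | zero => simp [bx]
  | succ n ih =>
    rw [bx, Bool.and_eq_true, Bool.and_eq_true, ih, Nat.forall_lt_succ_right]
    cases a.testBit n <;> cases u.testBit n <;> cases m.testBit n <;> simp

theorem bx_dec (p : ℕ → Bool) (a u m n : ℕ) : bx p a u n m = true ↔ p m = true ∧
    dec n a ⊆ dec n m ∧ dec n m ⊆ dec n u := by
  rw [bx_iff]
  refine and_congr_right fun _ => ⟨fun h => ⟨fun i hi => mem_dec.2 ((h i i.2).1 (mem_dec.1 hi)),
    fun i hi => mem_dec.2 ((h i i.2).2 (mem_dec.1 hi))⟩, fun h v hv =>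
    ⟨fun e => mem_dec.1 (h.1 (mem_dec (i := ⟨v, hv⟩).2 e)),
    fun e => mem_dec.1 (h.2 (mem_dec (i := ⟨v, hv⟩).2 e))⟩⟩

structure Ok (n : ℕ) (l : List ℕ) (M : ℕ → ℕ) : Prop where
  h1 : ∀ m ∈ l, m < 2 ^ n
  h2 : l.Nodup
  h3 : l.length < 1023
  h4 : ∀ v < n, M v = pk (·.testBit v) l

theorem cnt {n : ℕ} {l : List ℕ} {M : ℕ → ℕ} (H : Ok n l M) (p q : ℕ → Bool)
    (P : Finset (Fin n) → Prop) [DecidablePred P]
    (h : ∀ m, q m = true ↔ p m = true ∧ P (dec n m)) :
    ((cx n (l.filter p)).filter P).card = pk q l % 1023 := by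
  rw [pk_mod, Nat.mod_eq_of_lt ((List.length_filter_le _ _).trans_lt H.h3),
    card_cx (fun m hm => H.h1 m (List.mem_filter.1 hm).1) (H.h2.filter p) P q fun m hm => by
      rw [h, and_iff_right (List.mem_filter.1 hm).2], List.filter_filter]
  congr 2
  ext m
  cases e : q m
  · rfl
  · exact ((h m).1 e).1

theorem dec_full (n : ℕ) : dec n (2 ^ n - 1) = univ := by
  ext i
  simp [mem_dec]

theorem two {n : ℕ} {L : Finset (Finset (Fin n))} (hL : ∀ σ ∈ L, ∀ τ, τ ⊆ σ → τ ∈ L)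
    {σ : Finset (Fin n)} (h : (L.filter fun τ => σ ⊆ τ).card = 2) :
    ∃ v ∉ σ, σ ∈ L ∧ insert v σ ∈ L ∧ ∀ ρ ∈ L, σ ⊆ ρ → ρ = σ ∨ ρ = insert v σ := by
  obtain ⟨ρ, h1, h2⟩ := exists_mem_ne (h ▸ one_lt_two) σ
  obtain ⟨h3, h4⟩ := mem_filter.1 h1
  obtain ⟨v, v1, v2⟩ := exists_of_ssubset (h4.ssubset_of_ne h2.symm)
  have b1 := hL ρ h3 σ h4
  have b2 := hL ρ h3 _ (insert_subset v1 h4)
  refine ⟨v, v2, b1, b2, fun τ t1 t2 => ?_⟩
  have : ({σ, insert v σ} : Finset _) = L.filter fun τ => σ ⊆ τ := eq_of_subset_of_card_le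
    (insert_subset (mem_filter.2 ⟨b1, Subset.rfl⟩) (singleton_subset_iff.2
      (mem_filter.2 ⟨b2, subset_insert _ _⟩))) (by rw [h, card_pair (ssubset_insert v2).ne])
  simpa using this.ge (mem_filter.2 ⟨t1, t2⟩)

noncomputable def col (n : ℕ) (M : ℕ → ℕ) (F : ℕ) : List ℕ → ℕ → Bool
  | [], X => X % 1023 == 2
  | s :: t, X => force (box M s F X n) fun Y => Y % 1023 == 2 && force (X ^^^ Y) (col n M F t)

theorem col_ok {n : ℕ} {l : List ℕ} {M : ℕ → ℕ} (H : Ok n l M)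
    (S : Finset (Finset (Fin n)) → Prop) (h0 : ∀ v, S {∅, {v}})
    (h1 : ∀ L, ∀ σ ∈ L, ∀ τ ∈ L, σ ⊂ τ → τ.card = σ.card + 1 → (∀ ρ ∈ L, σ ⊆ ρ → ρ = σ ∨ ρ = τ) →
      S ((L.erase σ).erase τ) → S L) (t : List ℕ) : ∀ p,
      (∀ σ ∈ cx n (l.filter p), ∀ τ, τ ⊆ σ → τ ∈ cx n (l.filter p)) →
      col n M (2 ^ n - 1) t (pk p l) = true → S (cx n (l.filter p)) := by
  induction t with
  | nil =>
    intro p hL h
    rw [col, beq_iff_eq, ← cnt H p p (fun τ => ∅ ⊆ τ) (by simp)] at h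
    obtain ⟨v, -, a1, a2, a3⟩ := two hL h
    convert h0 v using 1
    ext ρ
    rw [mem_insert, mem_singleton]
    exact ⟨fun h => a3 ρ h (empty_subset _), fun h => h.elim (· ▸ a1) (· ▸ a2)⟩
  | cons s t ih =>
    intro p hL h
    simp only [col, force_eq, Bool.and_eq_true, box_eq p _ _ n H.h4, pk_xor, beq_iff_eq] at h
    have k0 : ∀ m, bx p s (2 ^ n - 1) n m = true ↔ p m = true ∧ dec n s ⊆ dec n m := fun m => by
      simp [bx_dec, dec_full]
    rw [← cnt H p _ (fun τ => dec n s ⊆ τ) k0] at h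
    obtain ⟨v, a0, a1, a2, a3⟩ := two hL h.1
    refine h1 _ _ a1 _ a2 (ssubset_insert a0) (card_insert_of_notMem a0) a3 ?_
    have k : ∀ ρ, ρ ∈ cx n (l.filter fun m => p m ^^ bx p s (2 ^ n - 1) n m) ↔
        ρ ∈ cx n (l.filter p) ∧ ¬ dec n s ⊆ ρ := fun ρ => by
      have : ∀ m, (p m ^^ bx p s (2 ^ n - 1) n m) = true ↔ p m = true ∧ ¬ dec n s ⊆ dec n m :=
        fun m => by
          have := k0 m
          cases e : bx p s (2 ^ n - 1) n m <;> simp_all
      simp only [mem_cx, List.mem_filter, this]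
      exact ⟨fun ⟨m, a, b⟩ => ⟨⟨m, ⟨a.1, a.2.1⟩, b⟩, b ▸ a.2.2⟩,
        fun ⟨⟨m, a, b⟩, c⟩ => ⟨m, ⟨a.1, a.2, b ▸ c⟩, b⟩⟩
    convert ih _ (fun σ hσ τ hτ => (k τ).2 ⟨hL σ ((k σ).1 hσ).1 τ hτ,
      fun c => ((k σ).1 hσ).2 (c.trans hτ)⟩) h.2 using 1
    ext ρ
    rw [k, mem_erase, mem_erase]
    exact ⟨fun c => ⟨c.2.2, fun d => (a3 _ c.2.2 d).elim c.2.1 c.1⟩,
      fun c => ⟨fun e => c.2 (e ▸ subset_insert _ _), fun e => c.2 e.ge, c.1⟩⟩

noncomputable def okV (a u h T v c : ℕ) : Bool := Bool.rec (Bool.rec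
  (force (Nat.mod (Nat.shiftRight T (Nat.mul 30 (Nat.mod (Nat.shiftRight h (Nat.mul 11 v)) 2048)))
    1073741824) fun y => Bool.rec (Nat.beq y (Nat.add (Nat.lor a (Nat.pow 2 v)) (Nat.mul 32768 u))) true
      (Nat.beq y (Nat.add a (Nat.mul 32768 (Nat.xor u (Nat.pow 2 v))))))
  true (Nat.beq (Nat.mod c 2) 1)) true (Nat.beq c 0)

theorem okV_ok {a u h T v c : ℕ} (e : okV a u h T v c = true) : c = 0 ∨ c % 2 = 1 ∨ ∃ j,
    (T >>> (30 * j)) % 1073741824 = (a ||| 2 ^ v) + 32768 * u ∨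
    (T >>> (30 * j)) % 1073741824 = a + 32768 * (u ^^^ 2 ^ v) := by
  have k : ∀ x y : Bool, (Bool.rec x true y : Bool) = true → x = true ∨ y = true := by decide
  rcases k _ _ e with e | e
  · rcases k _ _ e with e | e
    · rw [force_eq] at e
      exact Or.inr (Or.inr ⟨_, (k _ _ e).imp Nat.eq_of_beq_eq_true Nat.eq_of_beq_eq_true⟩)
    · exact Or.inr (Or.inl (Nat.eq_of_beq_eq_true e))
  · exact Or.inl (Nat.eq_of_beq_eq_true e)

noncomputable def allLt (f : ℕ → Bool) (n : ℕ) : Bool :=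
  Nat.rec true (fun v r => Bool.rec false r (f v)) n

theorem allLt_ok {f : ℕ → Bool} {n : ℕ} (h : allLt f n = true) : ∀ v < n, f v = true := by
  induction n with
  | zero => simp
  | succ n ih =>
    have e : allLt f (n + 1) = Bool.rec false (allLt f n) (f n) := rfl
    rw [e] at h
    cases c : f n <;> rw [c] at h
    · cases h
    · exact Nat.forall_lt_succ_right.2 ⟨ih h, c⟩

noncomputable def okX (M : ℕ → ℕ) (X0 T x : ℕ) : Bool := force (x % 32768) fun a =>
  force (x % 1073741824 / 32768) fun u => force (x / 1073741824) fun h =>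
  force (box M a u X0 15) fun X => X % 1023 != 2 && allLt (fun v => Bool.rec true (Bool.rec
    (force (Nat.mod (Nat.land X (M v)) 1023) (okV a u h T v)) true (tb a v)) (tb u v)) 15

noncomputable def ev (M : ℕ → ℕ) (X0 : ℕ) : List ℕ → ℕ → Bool
  | [], _ => true
  | x :: t, T => okX M X0 T x && force (1073741824 * T + x % 1073741824) (ev M X0 t)

def E (l : List ℕ) (c : ℕ) : Prop := ¬ NE (I (cx 15 l) (dec 15 (c % 32768)) (dec 15 (c / 32768)))

theorem E_zero (l : List ℕ) : E l 0 := fun hN => by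
  generalize hL : I (cx 15 l) _ _ = L at hN
  have : ∀ v, {v} ∉ L := fun v h => by
    subst hL
    simpa [dec] using (mem_filter.1 h).2.2.2
  cases hN with
  | base v => exact this v (by simp)
  | step L v b => exact this v b

theorem okX_ok {l : List ℕ} {M : ℕ → ℕ} (H : Ok 15 l M) (h3 : dc 15 l = true) {T x : ℕ}
    (hT : ∀ j, E l ((T >>> (30 * j)) % 1073741824)) (e : okX M (pk (fun _ => true) l) T x = true) :
    E l (x % 1073741824) := by
  have hK := dc_down h3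
  intro hN
  rw [show x % 1073741824 % 32768 = x % 32768 by omega] at hN
  simp only [okX, force_eq, box_eq _ _ _ _ H.h4, Bool.and_eq_true, bne_iff_ne, tb_eq] at e
  have ha : x % 32768 < 2 ^ 15 := by omega
  generalize x % 32768 = a at *
  generalize x % 1073741824 / 32768 = u at *
  obtain ⟨e2, e3⟩ := e
  generalize hL : I (cx 15 l) (dec 15 a) (dec 15 u) = L at hN
  cases hN with
  | base v => exact e2 (by
      rw [← cnt H _ _ (fun τ => dec 15 a ⊆ τ ∧ τ ⊆ dec 15 u) fun m => bx_dec _ a u m 15,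
        List.filter_true, ← card_I, hL, card_pair (singleton_ne_empty v).symm])
  | step L v b1 b2 b3 =>
    subst hL
    obtain ⟨-, c1, c2, c3⟩ := mem_filter.1 b1
    rw [disjoint_singleton_left] at c1
    have c4 : v ∈ dec 15 u := c3 (mem_union_left _ (mem_singleton_self _))
    have d2 : (I (cx 15 l) (dec 15 a) (dec 15 u)).filter (fun σ => v ∉ σ) =
        I (cx 15 l) (dec 15 a) (dec 15 (u ^^^ 2 ^ v.1)) := by
      ext σ
      simp only [I, mem_filter, mem_univ, true_and, dec_xor (mem_dec.1 c4), subset_erase, mem_union]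
      tauto
    have d3 : (I (cx 15 l) (dec 15 a) (dec 15 u)).filter (fun σ => v ∉ σ ∧
        insert v σ ∈ I (cx 15 l) (dec 15 a) (dec 15 u)) =
        I (cx 15 l) (dec 15 (a ||| 2 ^ v.1)) (dec 15 u) := by
      ext σ
      simp only [I, mem_filter, mem_univ, true_and, dec_or, disjoint_insert_left,
        disjoint_insert_right, insert_union, union_insert]
      exact ⟨fun h => ⟨⟨h.2.1, h.1.1⟩, h.2.2.2⟩, fun h => ⟨⟨h.1.2, hK _ h.2.1 _ (subset_insert _ _),
        (subset_insert _ _).trans h.2.2⟩, h.1.1, ⟨c1, h.1.2⟩, h.2⟩⟩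
    rw [d2] at b2
    rw [d3] at b3
    have d4 : (I (cx 15 l) (dec 15 (a ||| 2 ^ v.1)) (dec 15 u)).card =
        (pk (bx (fun _ => true) a u 15) l &&& M v) % 1023 := by
      rw [card_I, H.h4 v v.2, pk_and, ← cnt H (fun _ => true) _
        (fun τ => dec 15 (a ||| 2 ^ v.1) ⊆ τ ∧ τ ⊆ dec 15 u) fun m => ?_, List.filter_true]
      rw [Bool.and_eq_true, bx_dec, dec_or, insert_subset_iff, mem_dec]
      tauto
    have d5 := b3.even fun σ hσ τ hτ => by
      obtain ⟨-, f1, f2, f3⟩ := mem_filter.1 hσ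
      exact mem_filter.2 ⟨mem_univ _, f1.mono_left hτ, hK _ f2 _ (union_subset_union_left hτ),
        (union_subset_union_left hτ).trans f3⟩
    have d6 : 0 < (I (cx 15 l) (dec 15 (a ||| 2 ^ v.1)) (dec 15 u)).card :=
      card_pos.2 ⟨∅, mem_filter.2 ⟨mem_univ _, disjoint_empty_left _, by
        rw [empty_union, dec_or, insert_eq]
        exact ⟨c2, c3⟩⟩⟩
    have e4 := allLt_ok e3 v v.2
    rw [show a.testBit v = false by simpa [mem_dec] using c1, mem_dec.1 c4] at e4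
    have e5 := okV_ok e4
    change (_ &&& _) % 1023 = 0 ∨ (_ &&& _) % 1023 % 2 = 1 ∨ _ at e5
    rw [← d4] at e5
    have hb : a ||| 2 ^ v.1 < 2 ^ 15 := Nat.or_lt_two_pow ha (Nat.pow_lt_pow_right one_lt_two v.2)
    have k : ∀ a u, a < 2 ^ 15 → E l (a + 32768 * u) → ¬ NE (I (cx 15 l) (dec 15 a) (dec 15 u)) :=
      fun a u h1 h2 => by
        rwa [E, show (a + 32768 * u) % 32768 = a by omega,
          show (a + 32768 * u) / 32768 = u by omega] at h2
    obtain ⟨j, e6 | e6⟩ := (e5.resolve_left (by omega)).resolve_left (by omega)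
    exacts [k _ _ hb (e6 ▸ hT _) b3, k _ _ ha (e6 ▸ hT _) b2]

theorem ev_ok {l : List ℕ} {M : ℕ → ℕ} (H : Ok 15 l M) (h3 : dc 15 l = true) (t : List ℕ) :
    ∀ T, (∀ j, E l ((T >>> (30 * j)) % 1073741824)) → ev M (pk (fun _ => true) l) t T = true →
      ∀ x ∈ t, E l (x % 1073741824) := by
  induction t with
  | nil => simp
  | cons x t ih =>
    intro T hT e
    simp only [ev, force_eq, Bool.and_eq_true] at e
    have := okX_ok H h3 hT e.1
    refine List.forall_mem_cons.2 ⟨this, ih _ (fun j => ?_) e.2⟩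
    rcases j with _ | j
    · rwa [mul_zero, Nat.shiftRight_zero, Nat.mul_add_mod, Nat.mod_mod]
    · rw [mul_add, add_comm (30 * j), Nat.shiftRight_add, Nat.shiftRight_eq_div_pow _ (30 * 1),
        show (1073741824 * T + x % 1073741824) / 2 ^ (30 * 1) = T by omega]
      exact hT j

end Pool.Agent.H.MP_16c276_co
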